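import Mathlib

namespace Pool.Agent.Lib.MP_5daced_lc

open Set

universe u v

/-- Modal formulas in negation normal form over the variables `V`. -/
inductive Fm (V : Type u) : Type u
  | pos : V → Fm V
  | neg : V → Fm V
  | bot : Fm V
  | top : Fm V
  | and : Fm V → Fm V → Fm V
  | or : Fm V → Fm V → Fm V
  | dia : Fm V → Fm V
  | box : Fm V → Fm V

/-- A neighborhood frame on `W`: a monotone operator on subsets of `W`. -/
structure Frame (W : Type v) where
  dia : Set W → Set W
  mono : ∀ X Y : Set W, X ⊆ Y → dia X ⊆ dia Y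

/-- The dual operator. -/
def Frame.box {W : Type v} (F : Frame W) (X : Set W) : Set W := (F.dia Xᶜ)ᶜ

/-- The extension of a valuation to all formulas. -/
def eval {V : Type u} {W : Type v} (F : Frame W) (θ : V → Set W) : Fm V → Set W
  | .pos p => θ p
  | .neg p => (θ p)ᶜ
  | .bot => ∅
  | .top => univ
  | .and φ ψ => eval F θ φ ∩ eval F θ ψ
  | .or φ ψ => eval F θ φ ∪ eval F θ ψ
  | .dia φ => F.dia (eval F θ φ)
  | .box φ => F.box (eval F θ φ)

/-- No literal `¬ p` with `p` in the tuple `ps` occurs in the formula. -/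
def Positive {V : Type u} (ps : List V) : Fm V → Prop
  | .pos _ => True
  | .neg p => p ∉ ps
  | .bot => True
  | .top => True
  | .and φ ψ => Positive ps φ ∧ Positive ps ψ
  | .or φ ψ => Positive ps φ ∧ Positive ps ψ
  | .dia φ => Positive ps φ
  | .box φ => Positive ps φ

/-- `Z` is a bisimulation between the frame `F` and itself. -/
def IsBisim {W : Type v} (F : Frame W) (Z : SetRel W W) : Prop :=
  (∀ X : Set W, Z.image (F.dia X) ⊆ F.dia (Z.image X)) ∧
  (∀ X : Set W, Z.inv.image (F.dia X) ⊆ F.dia (Z.inv.image X))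

/-- `Z` is a `ps`-directed bisimulation from `(F, θ₁)` to `(F, θ₂)`. -/
def IsDirected {V : Type u} {W : Type v} (F : Frame W) (ps : List V) (θ₁ θ₂ : V → Set W)
    (Z : SetRel W W) : Prop :=
  IsBisim F Z ∧
  (∀ p : V, Z.image (eval F θ₁ (.pos p)) ⊆ eval F θ₂ (.pos p)) ∧
  (∀ p : V, p ∉ ps → Z.image (eval F θ₁ (.neg p)) ⊆ eval F θ₂ (.neg p))

end Pool.Agent.Lib.MP_5daced_lc
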