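import Pool.Agent.Lib.MP_5daced_lc.Defs

namespace Pool.Agent.Lib.MP_5daced_lc

universe u v

/-- The modal depth of a formula. -/
def depth {V : Type u} : Fm V → ℕ
  | .pos _ => 0
  | .neg _ => 0
  | .bot => 0
  | .top => 0
  | .and φ ψ => max (depth φ) (depth ψ)
  | .or φ ψ => max (depth φ) (depth ψ)
  | .dia φ => depth φ + 1
  | .box φ => depth φ + 1

/-- The neighborhood frame of a Kripke frame. -/
def kripke {W : Type v} (R : W → W → Prop) : Frame W where
  dia X := {w | ∃ x ∈ X, R w x}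
  mono _ _ h _ := fun ⟨x, hx, hr⟩ => ⟨x, h hx, hr⟩

/-- `φ` is preserved by all `ps`-directed bisimulations between models on `F`. -/
def Preserved {V : Type u} {W : Type v} (F : Frame W) (ps : List V) (φ : Fm V) : Prop :=
  ∀ (θ₁ θ₂ : V → Set W) (Z : SetRel W W), IsDirected F ps θ₁ θ₂ Z →
    Z.image (eval F θ₁ φ) ⊆ eval F θ₂ φ

end Pool.Agent.Lib.MP_5daced_lc
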