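import Pool.Agent.Lib.MP_5daced_lc.Proof
import Pool.Agent.Lib.MP_5daced_lc.DepthDefs

namespace Pool.Agent.Lib.MP_5daced_lc

open Set

universe u v

section Upper

variable {V : Type u} {W : Type v}

theorem depth_kill (A : Set V) : ∀ φ : Fm V, depth (kill A φ) = depth φ := by
  intro φ
  induction φ with
  | pos p => unfold kill; split_ifs <;> rfl
  | neg p => unfold kill; split_ifs <;> rfl
  | bot => rfl
  | top => rfl
  | and φ ψ ih1 ih2 => simp only [kill, depth, ih1, ih2]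
  | or φ ψ ih1 ih2 => simp only [kill, depth, ih1, ih2]
  | dia φ ih => simp only [kill, depth, ih]
  | box φ ih => simp only [kill, depth, ih]

/-- Sets of pointed models defined by a positive formula of depth at most `k`. -/
def DefK (F : Frame W) (ps : List V) (A : Set V) (k : ℕ) (S : Set ((A → Set W) × W)) : Prop :=
  ∃ ψ : Fm V, Positive ps ψ ∧ depth ψ ≤ k ∧
    ∀ x : (A → Set W) × W, x ∈ S ↔ x.2 ∈ eval F (ext A x.1) ψ

/-- Inclusion of positive theories up to depth `k`. -/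
def LeK (F : Frame W) (ps : List V) (A : Set V) (k : ℕ) (x y : (A → Set W) × W) : Prop :=
  ∀ ψ : Fm V, Positive ps ψ → depth ψ ≤ k → x.2 ∈ eval F (ext A x.1) ψ → y.2 ∈ eval F (ext A y.1) ψ

theorem defK_biUnion {ι : Type*} (F : Frame W) (ps : List V) (A : Set V) (k : ℕ) (I : Set ι)
    (hI : I.Finite) (S : ι → Set ((A → Set W) × W)) (h : ∀ i ∈ I, DefK F ps A k (S i)) :
    DefK F ps A k (⋃ i ∈ I, S i) := by
  induction I, hI using Set.Finite.induction_on with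
  | empty => exact ⟨.bot, trivial, Nat.zero_le _, by simp [eval]⟩
  | @insert a s _ _ ih =>
    obtain ⟨φ, hφ, d1, h1⟩ := h a (mem_insert _ _)
    obtain ⟨ψ, hψ, d2, h2⟩ := ih fun i hi => h i (mem_insert_of_mem _ hi)
    refine ⟨.or φ ψ, ⟨hφ, hψ⟩, max_le d1 d2, fun x => ?_⟩
    rw [biUnion_insert, mem_union, h1, h2]
    rfl

theorem defK_biInter {ι : Type*} (F : Frame W) (ps : List V) (A : Set V) (k : ℕ) (I : Set ι)
    (hI : I.Finite) (S : ι → Set ((A → Set W) × W)) (h : ∀ i ∈ I, DefK F ps A k (S i)) :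
    DefK F ps A k (⋂ i ∈ I, S i) := by
  induction I, hI using Set.Finite.induction_on with
  | empty => exact ⟨.top, trivial, Nat.zero_le _, by simp [eval]⟩
  | @insert a s _ _ ih =>
    obtain ⟨φ, hφ, d1, h1⟩ := h a (mem_insert _ _)
    obtain ⟨ψ, hψ, d2, h2⟩ := ih fun i hi => h i (mem_insert_of_mem _ hi)
    refine ⟨.and φ ψ, ⟨hφ, hψ⟩, max_le d1 d2, fun x => ?_⟩
    rw [biInter_insert, mem_inter_iff, h1, h2]
    rfl

theorem defK_of_upper [Finite W] (F : Frame W) (ps : List V) (A : Set V) (hA : A.Finite) (k : ℕ)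
    (U : Set ((A → Set W) × W)) (hU : ∀ x y, LeK F ps A k x y → x ∈ U → y ∈ U) :
    DefK F ps A k U := by
  have : Finite A := hA
  have key : U = ⋃ x ∈ U, ⋂ S ∈ {S | DefK F ps A k S ∧ x ∈ S}, S := by
    ext y
    simp only [mem_iUnion, mem_iInter, mem_ofPred_eq]
    constructor
    · intro hy
      exact ⟨y, hy, fun S hS => hS.2⟩
    · rintro ⟨x, hx, h⟩
      refine hU x y (fun ψ hψ hd hxψ => ?_) hx
      exact h {z | z.2 ∈ eval F (ext A z.1) ψ} ⟨⟨ψ, hψ, hd, fun _ => Iff.rfl⟩, hxψ⟩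
  rw [key]
  refine defK_biUnion F ps A k U (toFinite _) _ fun x _ => ?_
  exact defK_biInter F ps A k _ (toFinite _) (fun S => S) fun S hS => hS.1

theorem directed_leK [Finite W] (F : Frame W) (ps : List V) (A : Set V) (hA : A.Finite) (k : ℕ)
    (t₁ t₂ : A → Set W)
    (hk : ∀ a b, LeK F ps A k (t₁, a) (t₂, b) → LeK F ps A (k + 1) (t₁, a) (t₂, b)) :
    IsDirected F ps (ext A t₁) (ext A t₂) {p | LeK F ps A k (t₁, p.1) (t₂, p.2)} := by
  refine ⟨⟨fun X => ?_, fun X => ?_⟩, fun p => ?_, fun p hp => ?_⟩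
  · rintro w₂ ⟨w₁, hw₁, hle⟩
    obtain ⟨ψ, hψ, hd, h⟩ := defK_of_upper F ps A hA k {y | ∃ u ∈ X, LeK F ps A k (t₁, u) y} (by
      rintro x y hxy ⟨u, hu, hux⟩
      exact ⟨u, hu, fun χ hχ e h => hxy χ hχ e (hux χ hχ e h)⟩)
    have h1 : w₁ ∈ eval F (ext A t₁) (.dia ψ) :=
      F.mono _ _ (fun u hu => (h (t₁, u)).1 ⟨u, hu, fun _ _ _ h => h⟩) hw₁
    have h2 : w₂ ∈ eval F (ext A t₂) (.dia ψ) :=
      hk _ _ hle (.dia ψ) hψ (Nat.succ_le_succ hd) h1
    refine F.mono _ _ (fun u hu => ?_) h2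
    obtain ⟨a, ha, hau⟩ := (h (t₂, u)).2 hu
    exact ⟨a, ha, hau⟩
  · rintro w₁ ⟨w₂, hw₂, hle⟩
    obtain ⟨ψ, hψ, hd, h⟩ := defK_of_upper F ps A hA k {y | ∀ u ∈ X, ¬ LeK F ps A k y (t₂, u)} (by
      intro x y hxy hx u hu hyu
      exact hx u hu fun χ hχ e h => hyu χ hχ e (hxy χ hχ e h))
    by_contra hcon
    have h1 : w₁ ∈ eval F (ext A t₁) (.box ψ) := by
      intro h'
      apply hcon
      refine F.mono _ _ (fun a ha => ?_) h'
      by_contra hna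
      apply ha
      refine (h (t₁, a)).1 fun u hu hau => hna ⟨u, hu, hau⟩
    have h2 : w₂ ∈ eval F (ext A t₂) (.box ψ) :=
      hk _ _ hle (.box ψ) hψ (Nat.succ_le_succ hd) h1
    apply h2
    refine F.mono _ _ (fun u hu => ?_) hw₂
    intro hu'
    exact (h (t₂, u)).2 hu' u hu fun _ _ _ h => h
  · rintro w₂ ⟨w₁, hw₁, hle⟩
    exact hle (.pos p) trivial (Nat.zero_le _) hw₁
  · rintro w₂ ⟨w₁, hw₁, hle⟩
    exact hle (.neg p) hp (Nat.zero_le _) hw₁

theorem chain_stab {α : Type*} [Finite α] (Z : ℕ → Set α) (h : ∀ k, Z (k + 1) ⊆ Z k) :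
    ∃ k ≤ Nat.card α, Z k ⊆ Z (k + 1) := by
  by_contra hc
  push Not at hc
  have key : ∀ k ≤ Nat.card α + 1, (Z k).ncard + k ≤ Nat.card α := by
    intro k
    induction k with
    | zero => intro _; exact Set.ncard_le_card _
    | succ k ih =>
      intro hk
      have h1 := Set.ncard_lt_ncard (s := Z (k + 1)) (t := Z k) ⟨h k, hc k (by omega)⟩ (toFinite _)
      have h2 := ih (by omega)
      omega
  have := key _ le_rfl
  omega

theorem upper [Finite W] (F : Frame W) (ps : List V) (φ : Fm V) (h : Preserved F ps φ) :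
    ∃ ψ : Fm V, Positive ps ψ ∧ depth ψ ≤ Nat.card W ^ 2 ∧
      ∀ θ : V → Set W, eval F θ φ = eval F θ ψ := by
  obtain ⟨ψ, hψ, hd, he⟩ := defK_of_upper F ps (vars φ) (vars_finite φ) (Nat.card W ^ 2)
    {x | x.2 ∈ eval F (ext (vars φ) x.1) φ} (by
      intro x y hxy hx
      obtain ⟨k, hk, hs⟩ := chain_stab
        (fun k => {p : W × W | LeK F ps (vars φ) k (x.1, p.1) (y.1, p.2)})
        fun k p hp χ hχ e => hp χ hχ (e.trans (Nat.le_succ k))
      rw [Nat.card_prod, ← sq] at hk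
      exact h _ _ _ (directed_leK F ps (vars φ) (vars_finite φ) k x.1 y.1 fun a b hab =>
        hs (a := (a, b)) hab) ⟨x.2, hx, fun χ hχ e => hxy χ hχ (e.trans hk)⟩)
  refine ⟨kill (vars φ) ψ, kill_positive _ _ _ hψ, (depth_kill _ _).le.trans hd, fun θ => ?_⟩
  rw [eval_kill, eval_congr F θ (ext (vars φ) fun p => θ p) φ
    fun p hp => (ext_mem (vars φ) (fun p => θ p) p hp).symm]
  ext w
  exact he (fun p => θ p, w)

end Upper

section Lower

/-- The edges of the cycle of length `n` with one chord. -/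
def We (n a b : ℕ) : Prop := b = a + 1 ∨ (a + 1 = n ∧ b = 0) ∨ (a = 0 ∧ b = 2)

/-- The pairs which survive `k` rounds. -/
def Zk (m k a b : ℕ) : Prop :=
  ∃ d, d < m ∧ (b = a + d + 1 ∨ b + m = a + d) ∧ ¬ (a = 1 ∧ b = 2) ∧
    (a = 0 → k ≤ d * m) ∧ k + a ≤ d * m + m + 1

theorem zk_step {m k a b x y : ℕ} (hm : 2 ≤ m) (ha : a ≤ m) (hx : x ≤ m) (hy : y ≤ m)
    (h : Zk m (k + 1) a b) (e1 : We (m + 1) a x) (e2 : We (m + 1) b y) : x = y ∨ Zk m k x y := by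
  obtain ⟨d, h1, h2, h3, h4, h5⟩ := h
  by_cases hxy : x = y
  · exact Or.inl hxy
  refine Or.inr ?_
  have z0 : d = 0 → d * m = 0 := fun h => by simp [h]
  by_cases c1 : a = 0 ∧ x = 2
  · obtain ⟨e, rfl⟩ : ∃ e, d = e + 1 := ⟨d - 1, by
      rcases Nat.eq_zero_or_pos d with h0 | h0
      · have := z0 h0; omega
      · omega⟩
    rw [Nat.add_mul, Nat.one_mul] at h4 h5
    unfold We at e1 e2
    exact ⟨e, by omega, by omega, by omega, by omega, by omega⟩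
  by_cases c2 : b = 0 ∧ y = 2
  · unfold We at e1 e2
    refine ⟨d + 1, by omega, by omega, by omega, ?_, ?_⟩ <;> rw [Nat.add_mul, Nat.one_mul] <;> omega
  unfold We at e1 e2
  exact ⟨d, h1, by omega, by omega, by omega, by omega⟩

variable {V : Type u} {m : ℕ}

/-- The frame on `m + 1` points. -/
def wf (m : ℕ) : Frame (Fin (m + 1)) := kripke fun a b => We (m + 1) a b

theorem we_serial (a : Fin (m + 1)) : ∃ b : Fin (m + 1), We (m + 1) a b := by
  by_cases h : (a : ℕ) + 1 < m + 1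
  · exact ⟨⟨a + 1, h⟩, Or.inl rfl⟩
  · exact ⟨0, Or.inr (Or.inl ⟨by omega, rfl⟩)⟩

theorem pres_zk (hm : 2 ≤ m) (p : V) (θ₁ θ₂ : V → Set (Fin (m + 1)))
    (h1 : ∀ a, a ∈ θ₁ p ↔ (a : ℕ) = 1) (h2 : ∀ a, a ∈ θ₂ p ↔ (a : ℕ) ≠ 2)
    (h3 : ∀ q, q ≠ p → θ₁ q = ∅ ∧ θ₂ q = ∅) : ∀ ψ : Fm V, Positive [p] ψ →
    ∀ (k : ℕ) (a b : Fin (m + 1)), depth ψ ≤ k → (a = b ∨ Zk m k a b) →
      a ∈ eval (wf m) θ₁ ψ → b ∈ eval (wf m) θ₂ ψ := by
  have st {k : ℕ} {a b x y : Fin (m + 1)} (h : Zk m (k + 1) a b) (e1 : We (m + 1) a x)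
      (e2 : We (m + 1) b y) : x = y ∨ Zk m k x y :=
    (zk_step hm a.is_le x.is_le y.is_le h e1 e2).imp Fin.ext id
  intro ψ
  induction ψ with
  | pos q =>
    intro _ k a b _ hz ha
    by_cases hq : q = p
    · subst hq
      have e := (h1 a).1 ha
      refine (h2 b).2 fun hb => ?_
      rcases hz with rfl | ⟨d, -, -, h, -⟩
      · omega
      · exact h ⟨e, hb⟩
    · exact absurd ha (by simp [eval, (h3 q hq).1])
  | neg q =>
    intro hq k a b _ _ _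
    have hq' : q ≠ p := by simpa [Positive] using hq
    simp [eval, (h3 q hq').2]
  | bot => intro _ k a b _ _ ha; exact ha
  | top => intro _ k a b _ _ _; trivial
  | and φ ψ ih1 ih2 =>
    rintro ⟨p1, p2⟩ k a b hd hz ha
    exact ⟨ih1 p1 k a b (max_le_iff.1 hd).1 hz ha.1, ih2 p2 k a b (max_le_iff.1 hd).2 hz ha.2⟩
  | or φ ψ ih1 ih2 =>
    rintro ⟨p1, p2⟩ k a b hd hz ha
    exact ha.imp (ih1 p1 k a b (max_le_iff.1 hd).1 hz) (ih2 p2 k a b (max_le_iff.1 hd).2 hz)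
  | dia φ ih =>
    rintro hp k a b hd hz ⟨x, hx, e⟩
    obtain ⟨k, rfl⟩ : ∃ j, k = j + 1 := ⟨k - 1, by simp only [depth] at hd; omega⟩
    have hd' : depth φ ≤ k := Nat.le_of_succ_le_succ hd
    rcases hz with rfl | hz
    · exact ⟨x, ih hp k x x hd' (Or.inl rfl) hx, e⟩
    · obtain ⟨y, e'⟩ := we_serial b
      exact ⟨y, ih hp k x y hd' (st hz e e') hx, e'⟩
  | box φ ih =>
    rintro hp k a b hd hz ha ⟨y, hy, e⟩
    obtain ⟨k, rfl⟩ : ∃ j, k = j + 1 := ⟨k - 1, by simp only [depth] at hd; omega⟩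
    have hd' : depth φ ≤ k := Nat.le_of_succ_le_succ hd
    rcases hz with rfl | hz
    · exact ha ⟨y, fun h => hy (ih hp k y y hd' (Or.inl rfl) h), e⟩
    · obtain ⟨x, e'⟩ := we_serial a
      exact ha ⟨x, fun h => hy (ih hp k x y hd' (st hz e' e) h), e'⟩

theorem bisim_step {Z : SetRel (Fin (m + 1)) (Fin (m + 1))} (hZ : IsBisim (wf m) Z)
    {a b x y : Fin (m + 1)} (h : (a, b) ∈ Z) (hab : (a : ℕ) ≠ b) (e1 : We (m + 1) a x)
    (e2 : We (m + 1) b y) : (x, y) ∈ Z := by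
  have hx := x.2
  have hy := y.2
  by_cases hb : (b : ℕ) = 0
  · obtain ⟨x', ⟨y', rfl, h'⟩, e⟩ := hZ.2 {y}
      (show a ∈ Z.inv.image ((wf m).dia {y}) from ⟨b, ⟨y, rfl, e2⟩, h⟩)
    have hx' := x'.2
    obtain rfl : x' = x := Fin.ext (by unfold We at e e1; omega)
    exact h'
  · obtain ⟨y', ⟨x', rfl, h'⟩, e⟩ := hZ.1 {x}
      (show b ∈ Z.image ((wf m).dia {x}) from ⟨a, ⟨x, rfl, e1⟩, h⟩)
    have hy' := y'.2
    obtain rfl : y' = y := Fin.ext (by unfold We at e e2; omega)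
    exact h'

theorem bisim_reach (hm : 2 ≤ m) {Z : SetRel (Fin (m + 1)) (Fin (m + 1))} (hZ : IsBisim (wf m) Z)
    (h : ((⟨1, by omega⟩ : Fin (m + 1)), (0 : Fin (m + 1))) ∈ Z) :
    ((⟨1, by omega⟩ : Fin (m + 1)), (⟨2, by omega⟩ : Fin (m + 1))) ∈ Z := by
  let Q : ℕ → ℕ → Prop := fun a b => ∃ (ha : a < m + 1) (hb : b < m + 1), (⟨a, ha⟩, ⟨b, hb⟩) ∈ Z
  have st {a b x y : ℕ} (q : Q a b) (hab : a ≠ b) (hx : x < m + 1) (hy : y < m + 1)
      (e1 : We (m + 1) a x) (e2 : We (m + 1) b y) : Q x y :=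
    let ⟨_, _, q⟩ := q
    ⟨hx, hy, bisim_step hZ q hab e1 e2⟩
  have sh {a b : ℕ} (q : Q a b) (hab : a ≠ b) : ∀ i, a + i ≤ m → b + i ≤ m → Q (a + i) (b + i) := by
    intro i
    induction i with
    | zero => intro _ _; exact q
    | succ i ih =>
      intro h1 h2
      exact st (ih (by omega) (by omega)) (by omega) (by omega) (by omega) (Or.inl rfl) (Or.inl rfl)
  have rd : ∀ j, j + 1 ≤ m → Q (j + 1) 0 := by
    intro j
    induction j with
    | zero => intro _; exact ⟨_, _, h⟩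
    | succ j ih =>
      intro hj
      have q1 := sh (ih (by omega)) (by omega) (m - (j + 1)) (by omega) (by omega)
      have q2 : Q 0 (m - j) := st q1 (by omega) (by omega) (by omega)
        (Or.inr (Or.inl ⟨by omega, rfl⟩)) (Or.inl (by omega))
      rcases Nat.eq_zero_or_pos j with rfl | hj0
      · exact st q2 (by omega) (by omega) (by omega) (Or.inr (Or.inr ⟨rfl, rfl⟩))
          (Or.inr (Or.inl ⟨by omega, rfl⟩))
      · have q3 : Q 2 (m - j + 1) := st q2 (by omega) (by omega) (by omega)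
          (Or.inr (Or.inr ⟨rfl, rfl⟩)) (Or.inl rfl)
        have q4 := sh q3 (by omega) (j - 1) (by omega) (by omega)
        exact st q4 (by omega) (by omega) (by omega) (Or.inl (by omega))
          (Or.inr (Or.inl ⟨by omega, rfl⟩))
  have q5 : Q 0 1 := st (rd (m - 1) (by omega)) (by omega) (by omega) (by omega)
    (Or.inr (Or.inl ⟨by omega, rfl⟩)) (Or.inl rfl)
  obtain ⟨_, _, q6⟩ : Q 1 2 := st q5 (by omega) (by omega) (by omega) (Or.inl rfl) (Or.inl rfl)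
  exact q6

theorem lower (hm : 2 ≤ m) (p : V) : ∃ φ : Fm V, Preserved (wf m) [p] φ ∧
    ∀ ψ : Fm V, Positive [p] ψ → (∀ θ, eval (wf m) θ φ = eval (wf m) θ ψ) → m ^ 2 < depth ψ := by
  let t₁ : ({p} : Set V) → Set (Fin (m + 1)) := fun _ => {a | (a : ℕ) = 1}
  let t₂ : ({p} : Set V) → Set (Fin (m + 1)) := fun _ => {a | (a : ℕ) ≠ 2}
  have e1 : ext {p} t₁ p = {a : Fin (m + 1) | (a : ℕ) = 1} := ext_mem {p} t₁ p rfl
  have e2 : ext {p} t₂ p = {a : Fin (m + 1) | (a : ℕ) ≠ 2} := ext_mem {p} t₂ p rfl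
  have hD := directed_le (wf m) [p] {p} (finite_singleton p) t₁ t₂
  have hn : ¬ Le (wf m) [p] {p} (t₁, ⟨1, by omega⟩) (t₂, 0) := fun h => by
    have h1 := hD.2.1 p (show (⟨2, by omega⟩ : Fin (m + 1)) ∈ SetRel.image _ _ from
      ⟨⟨1, by omega⟩, by simp [eval, e1], bisim_reach hm hD.1 h⟩)
    simp [eval, e2] at h1
  unfold Le at hn
  push Not at hn
  obtain ⟨φ, hφ, a1, a2⟩ := hn
  refine ⟨φ, fun θ₁ θ₂ Z hZ => preserved_of_positive _ _ _ _ _ hZ φ hφ, fun ψ hψ he => ?_⟩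
  by_contra hd
  rw [he] at a1 a2
  refine a2 (pres_zk hm p _ _ (fun a => by rw [e1]; rfl) (fun a => by rw [e2]; rfl)
    (fun q hq => ⟨ext_not_mem _ _ q hq, ext_not_mem _ _ q hq⟩) ψ hψ (m ^ 2) _ _ (not_lt.1 hd)
    (Or.inr ?_) a1)
  obtain ⟨d, rfl⟩ : ∃ d, m = d + 1 := ⟨m - 1, by omega⟩
  exact ⟨d, by omega, Or.inr (by simp; omega), by simp, by simp, by simp; nlinarith⟩

end Lower

end Pool.Agent.Lib.MP_5daced_lc
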