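import Pool.Agent.Lib.MP_5daced_lc.Defs

namespace Pool.Agent.Lib.MP_5daced_lc

open Set

universe u v

section Proof

variable {V : Type u} {W : Type v}

theorem preserved_of_positive (F : Frame W) (ps : List V) (θ₁ θ₂ : V → Set W) (Z : SetRel W W)
    (hZ : IsDirected F ps θ₁ θ₂ Z) :
    ∀ ψ : Fm V, Positive ps ψ → Z.image (eval F θ₁ ψ) ⊆ eval F θ₂ ψ := by
  intro ψ
  induction ψ with
  | pos p => intro _; exact hZ.2.1 p
  | neg p => intro h; exact hZ.2.2 p h
  | bot => rintro _ w ⟨a, ha, _⟩; exact ha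
  | top => intro _ w _; trivial
  | and φ ψ ih1 ih2 =>
    rintro ⟨h1, h2⟩ w ⟨a, ha, haw⟩
    exact ⟨ih1 h1 ⟨a, ha.1, haw⟩, ih2 h2 ⟨a, ha.2, haw⟩⟩
  | or φ ψ ih1 ih2 =>
    rintro ⟨h1, h2⟩ w ⟨a, ha, haw⟩
    rcases ha with ha | ha
    · exact Or.inl (ih1 h1 ⟨a, ha, haw⟩)
    · exact Or.inr (ih2 h2 ⟨a, ha, haw⟩)
  | dia φ ih =>
    intro h w hw
    exact F.mono _ _ (ih h) (hZ.1.1 _ hw)
  | box φ ih =>
    rintro h w ⟨a, ha, haw⟩ hw
    apply ha
    have h1 : a ∈ F.dia (Z.inv.image (eval F θ₂ φ)ᶜ) := hZ.1.2 _ ⟨w, hw, haw⟩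
    refine F.mono _ _ ?_ h1
    rintro b ⟨c, hc, hcb⟩ hb
    exact hc (ih h ⟨b, hb, hcb⟩)

/-- The variables of a formula. -/
def vars : Fm V → Set V
  | .pos p => {p}
  | .neg p => {p}
  | .bot => ∅
  | .top => ∅
  | .and φ ψ => vars φ ∪ vars ψ
  | .or φ ψ => vars φ ∪ vars ψ
  | .dia φ => vars φ
  | .box φ => vars φ

theorem vars_finite (φ : Fm V) : (vars φ).Finite := by
  induction φ with
  | pos p => exact finite_singleton p
  | neg p => exact finite_singleton p
  | bot => exact finite_empty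
  | top => exact finite_empty
  | and φ ψ ih1 ih2 => exact ih1.union ih2
  | or φ ψ ih1 ih2 => exact ih1.union ih2
  | dia φ ih => exact ih
  | box φ ih => exact ih

theorem eval_congr (F : Frame W) (θ θ' : V → Set W) :
    ∀ φ : Fm V, (∀ p ∈ vars φ, θ p = θ' p) → eval F θ φ = eval F θ' φ := by
  intro φ
  induction φ with
  | pos p => intro h; exact h p rfl
  | neg p => intro h; simp only [eval]; rw [h p rfl]
  | bot => intro _; rfl
  | top => intro _; rfl
  | and φ ψ ih1 ih2 =>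
    intro h
    simp only [eval]
    rw [ih1 fun p hp => h p (Or.inl hp), ih2 fun p hp => h p (Or.inr hp)]
  | or φ ψ ih1 ih2 =>
    intro h
    simp only [eval]
    rw [ih1 fun p hp => h p (Or.inl hp), ih2 fun p hp => h p (Or.inr hp)]
  | dia φ ih => intro h; simp only [eval]; rw [ih h]
  | box φ ih => intro h; simp only [eval]; rw [ih h]

/-- The valuation that agrees with `t` on `A` and is empty elsewhere. -/
def ext (A : Set V) (t : A → Set W) : V → Set W := fun p => {w | ∃ h : p ∈ A, w ∈ t ⟨p, h⟩}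

theorem ext_mem (A : Set V) (t : A → Set W) (p : V) (h : p ∈ A) : ext A t p = t ⟨p, h⟩ := by
  ext w; simp [ext, h]

theorem ext_not_mem (A : Set V) (t : A → Set W) (p : V) (h : p ∉ A) : ext A t p = ∅ := by
  ext w; simp [ext, h]

open Classical in
/-- Replace the variables outside `A` by falsity. -/
noncomputable def kill (A : Set V) : Fm V → Fm V
  | .pos p => if p ∈ A then .pos p else .bot
  | .neg p => if p ∈ A then .neg p else .top
  | .bot => .bot
  | .top => .top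
  | .and φ ψ => .and (kill A φ) (kill A ψ)
  | .or φ ψ => .or (kill A φ) (kill A ψ)
  | .dia φ => .dia (kill A φ)
  | .box φ => .box (kill A φ)

theorem kill_positive (A : Set V) (ps : List V) :
    ∀ φ : Fm V, Positive ps φ → Positive ps (kill A φ) := by
  intro φ
  induction φ with
  | pos p => intro _; unfold kill; split_ifs <;> trivial
  | neg p => intro h; unfold kill; split_ifs; exacts [h, trivial]
  | bot => intro _; trivial
  | top => intro _; trivial
  | and φ ψ ih1 ih2 => rintro ⟨h1, h2⟩; exact ⟨ih1 h1, ih2 h2⟩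
  | or φ ψ ih1 ih2 => rintro ⟨h1, h2⟩; exact ⟨ih1 h1, ih2 h2⟩
  | dia φ ih => exact ih
  | box φ ih => exact ih

theorem eval_kill (F : Frame W) (A : Set V) (θ : V → Set W) :
    ∀ φ : Fm V, eval F θ (kill A φ) = eval F (ext A fun p => θ p) φ := by
  intro φ
  induction φ with
  | pos p =>
    unfold kill
    split_ifs with h
    · simp [eval, ext_mem A _ p h]
    · simp [eval, ext_not_mem A _ p h]
  | neg p =>
    unfold kill
    split_ifs with h
    · simp [eval, ext_mem A _ p h]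
    · simp [eval, ext_not_mem A _ p h]
  | bot => rfl
  | top => rfl
  | and φ ψ ih1 ih2 => simp only [kill, eval, ih1, ih2]
  | or φ ψ ih1 ih2 => simp only [kill, eval, ih1, ih2]
  | dia φ ih => simp only [kill, eval, ih]
  | box φ ih => simp only [kill, eval, ih]

/-- Sets of pointed models defined by a positive formula. -/
def Defbl (F : Frame W) (ps : List V) (A : Set V) (S : Set ((A → Set W) × W)) : Prop :=
  ∃ ψ : Fm V, Positive ps ψ ∧ ∀ x : (A → Set W) × W, x ∈ S ↔ x.2 ∈ eval F (ext A x.1) ψ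

/-- Inclusion of positive theories. -/
def Le (F : Frame W) (ps : List V) (A : Set V) (x y : (A → Set W) × W) : Prop :=
  ∀ ψ : Fm V, Positive ps ψ → x.2 ∈ eval F (ext A x.1) ψ → y.2 ∈ eval F (ext A y.1) ψ

theorem defbl_biUnion {ι : Type*} (F : Frame W) (ps : List V) (A : Set V) (I : Set ι)
    (hI : I.Finite) (S : ι → Set ((A → Set W) × W)) (h : ∀ i ∈ I, Defbl F ps A (S i)) :
    Defbl F ps A (⋃ i ∈ I, S i) := by
  induction I, hI using Set.Finite.induction_on with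
  | empty => exact ⟨.bot, trivial, by simp [eval]⟩
  | @insert a s _ _ ih =>
    obtain ⟨φ, hφ, h1⟩ := h a (mem_insert _ _)
    obtain ⟨ψ, hψ, h2⟩ := ih fun i hi => h i (mem_insert_of_mem _ hi)
    refine ⟨.or φ ψ, ⟨hφ, hψ⟩, fun x => ?_⟩
    rw [biUnion_insert, mem_union, h1, h2]
    rfl

theorem defbl_biInter {ι : Type*} (F : Frame W) (ps : List V) (A : Set V) (I : Set ι)
    (hI : I.Finite) (S : ι → Set ((A → Set W) × W)) (h : ∀ i ∈ I, Defbl F ps A (S i)) :
    Defbl F ps A (⋂ i ∈ I, S i) := by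
  induction I, hI using Set.Finite.induction_on with
  | empty => exact ⟨.top, trivial, by simp [eval]⟩
  | @insert a s _ _ ih =>
    obtain ⟨φ, hφ, h1⟩ := h a (mem_insert _ _)
    obtain ⟨ψ, hψ, h2⟩ := ih fun i hi => h i (mem_insert_of_mem _ hi)
    refine ⟨.and φ ψ, ⟨hφ, hψ⟩, fun x => ?_⟩
    rw [biInter_insert, mem_inter_iff, h1, h2]
    rfl

theorem defbl_of_upper [Finite W] (F : Frame W) (ps : List V) (A : Set V) (hA : A.Finite)
    (U : Set ((A → Set W) × W)) (hU : ∀ x y, Le F ps A x y → x ∈ U → y ∈ U) :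
    Defbl F ps A U := by
  have : Finite A := hA
  have key : U = ⋃ x ∈ U, ⋂ S ∈ {S | Defbl F ps A S ∧ x ∈ S}, S := by
    ext y
    simp only [mem_iUnion, mem_iInter, mem_ofPred_eq]
    constructor
    · intro hy
      exact ⟨y, hy, fun S hS => hS.2⟩
    · rintro ⟨x, hx, h⟩
      refine hU x y (fun ψ hψ hxψ => ?_) hx
      exact h {z | z.2 ∈ eval F (ext A z.1) ψ} ⟨⟨ψ, hψ, fun _ => Iff.rfl⟩, hxψ⟩
  rw [key]
  refine defbl_biUnion F ps A U (toFinite _) _ fun x _ => ?_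
  exact defbl_biInter F ps A _ (toFinite _) (fun S => S) fun S hS => hS.1

theorem directed_le [Finite W] (F : Frame W) (ps : List V) (A : Set V) (hA : A.Finite)
    (t₁ t₂ : A → Set W) :
    IsDirected F ps (ext A t₁) (ext A t₂) {p | Le F ps A (t₁, p.1) (t₂, p.2)} := by
  refine ⟨⟨fun X => ?_, fun X => ?_⟩, fun p => ?_, fun p hp => ?_⟩
  · rintro w₂ ⟨w₁, hw₁, hle⟩
    obtain ⟨ψ, hψ, h⟩ := defbl_of_upper F ps A hA {y | ∃ u ∈ X, Le F ps A (t₁, u) y} (by
      rintro x y hxy ⟨u, hu, hux⟩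
      exact ⟨u, hu, fun χ hχ h => hxy χ hχ (hux χ hχ h)⟩)
    have h1 : w₁ ∈ eval F (ext A t₁) (.dia ψ) :=
      F.mono _ _ (fun u hu => (h (t₁, u)).1 ⟨u, hu, fun _ _ h => h⟩) hw₁
    have h2 : w₂ ∈ eval F (ext A t₂) (.dia ψ) := hle (.dia ψ) hψ h1
    refine F.mono _ _ (fun u hu => ?_) h2
    obtain ⟨a, ha, hau⟩ := (h (t₂, u)).2 hu
    exact ⟨a, ha, hau⟩
  · rintro w₁ ⟨w₂, hw₂, hle⟩
    obtain ⟨ψ, hψ, h⟩ := defbl_of_upper F ps A hA {y | ∀ u ∈ X, ¬ Le F ps A y (t₂, u)} (by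
      intro x y hxy hx u hu hyu
      exact hx u hu fun χ hχ h => hyu χ hχ (hxy χ hχ h))
    by_contra hcon
    have h1 : w₁ ∈ eval F (ext A t₁) (.box ψ) := by
      intro h'
      apply hcon
      refine F.mono _ _ (fun a ha => ?_) h'
      by_contra hna
      apply ha
      refine (h (t₁, a)).1 fun u hu hau => hna ⟨u, hu, hau⟩
    have h2 : w₂ ∈ eval F (ext A t₂) (.box ψ) := hle (.box ψ) hψ h1
    apply h2
    refine F.mono _ _ (fun u hu => ?_) hw₂
    intro hu'
    exact (h (t₂, u)).2 hu' u hu fun _ _ h => h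
  · rintro w₂ ⟨w₁, hw₁, hle⟩
    exact hle (.pos p) trivial hw₁
  · rintro w₂ ⟨w₁, hw₁, hle⟩
    exact hle (.neg p) hp hw₁

end Proof

theorem main {V : Type u} {W : Type v} [Finite W] (F : Frame W) (ps : List V) (φ : Fm V) :
    (∃ ψ : Fm V, Positive ps ψ ∧ ∀ θ : V → Set W, eval F θ φ = eval F θ ψ) ↔
      ∀ (θ₁ θ₂ : V → Set W) (Z : SetRel W W), IsDirected F ps θ₁ θ₂ Z →
        Z.image (eval F θ₁ φ) ⊆ eval F θ₂ φ := by
  constructor
  · rintro ⟨ψ, hψ, h⟩ θ₁ θ₂ Z hZ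
    rw [h θ₁, h θ₂]
    exact preserved_of_positive F ps θ₁ θ₂ Z hZ ψ hψ
  · intro h
    obtain ⟨ψ, hψ, hd⟩ := defbl_of_upper F ps (vars φ) (vars_finite φ)
      {x | x.2 ∈ eval F (ext (vars φ) x.1) φ} (by
        intro x y hxy hx
        exact h _ _ _ (directed_le F ps (vars φ) (vars_finite φ) x.1 y.1) ⟨x.2, hx, hxy⟩)
    refine ⟨kill (vars φ) ψ, kill_positive _ _ _ hψ, fun θ => ?_⟩
    rw [eval_kill, eval_congr F θ (ext (vars φ) fun p => θ p) φ
      fun p hp => (ext_mem (vars φ) (fun p => θ p) p hp).symm]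
    ext w
    exact hd (fun p => θ p, w)

end Pool.Agent.Lib.MP_5daced_lc
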